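import Mathlib

/-!
Ancestor structure of an elimination ordering.
-/

set_option autoImplicit false
set_option linter.unusedSectionVars false

open Finset

namespace Pool.Agent.H455R3.Clust

variable {V : Type} [LinearOrder V] [Fintype V]

/-- `u` is an ancestor of `v`. -/
def Anc (A : V → Finset V) (u v : V) : Prop :=
  Relation.ReflTransGen (fun x y => y ∈ A x) v u

theorem anc_refl (A : V → Finset V) (v : V) : Anc A v v := Relation.ReflTransGen.refl

theorem anc_trans {A : V → Finset V} {u v w : V} (h1 : Anc A u v) (h2 : Anc A v w) :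
    Anc A u w := Relation.ReflTransGen.trans h2 h1

theorem anc_of_mem {A : V → Finset V} {u v : V} (h : u ∈ A v) : Anc A u v :=
  Relation.ReflTransGen.single h

theorem anc_le {A : V → Finset V} (hlt : ∀ u v, u ∈ A v → u < v) {u v : V}
    (h : Anc A u v) : u ≤ v := by
  induction h with
  | refl => exact le_rfl
  | tail _ hbc ih => exact le_trans (hlt _ _ hbc).le ih

theorem anc_chain {A : V → Finset V} (hlt : ∀ u v, u ∈ A v → u < v)
    (hcl : ∀ u w v, u ∈ A v → w ∈ A v → u < w → u ∈ A w) :
    ∀ v u w : V, Anc A u v → Anc A w v → u ≤ w → Anc A u w := by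
  intro v
  induction v using WellFoundedLT.induction with
  | _ v ih =>
    intro u w hu hw huw
    rcases Relation.ReflTransGen.cases_head hw with h | ⟨v2, h2, hw2⟩
    · subst h; exact hu
    rcases Relation.ReflTransGen.cases_head hu with h | ⟨v1, h1, hu1⟩
    · subst h
      have := anc_le hlt hw
      have : v = w := le_antisymm huw this
      subst this
      exact anc_refl A v
    rcases lt_trichotomy v1 v2 with h | h | h
    · have h12 : v1 ∈ A v2 := hcl _ _ _ h1 h2 h
      exact ih v2 (hlt _ _ h2) u w (anc_trans hu1 (anc_of_mem h12)) hw2 huw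
    · subst h
      exact ih v1 (hlt _ _ h1) u w hu1 hw2 huw
    · have h21 : v2 ∈ A v1 := hcl _ _ _ h2 h1 h
      exact ih v1 (hlt _ _ h1) u w hu1 (anc_trans hw2 (anc_of_mem h21)) huw

theorem persist {A : V → Finset V} (hlt : ∀ u v, u ∈ A v → u < v)
    (hcl : ∀ u w v, u ∈ A v → w ∈ A v → u < w → u ∈ A w) :
    ∀ v u w : V, u ∈ A v → Anc A w v → u < w → u ∈ A w := by
  intro v
  induction v using WellFoundedLT.induction with
  | _ v ih =>
    intro u w hu hw huw
    rcases Relation.ReflTransGen.cases_head hw with h | ⟨v1, h1, hw1⟩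
    · subst h; exact hu
    have hle : w ≤ v1 := anc_le hlt hw1
    have hu1 : u ∈ A v1 := hcl _ _ _ hu h1 (lt_of_lt_of_le huw hle)
    exact ih v1 (hlt _ _ h1) u w hu1 hw1 huw

open Classical in
/-- The finite set of ancestors. -/
noncomputable def ancS (A : V → Finset V) (v : V) : Finset V :=
  univ.filter (fun u => Anc A u v)

theorem mem_ancS {A : V → Finset V} {u v : V} : u ∈ ancS A v ↔ Anc A u v := by
  simp [ancS]

/-- Lowest common ancestor (junk value `a` if there is none). -/
noncomputable def lca (A : V → Finset V) (a b : V) : V :=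
  if h : (ancS A a ∩ ancS A b).Nonempty then (ancS A a ∩ ancS A b).max' h else a

theorem lca_self {A : V → Finset V} (hlt : ∀ u v, u ∈ A v → u < v) (a : V) :
    lca A a a = a := by
  have hne : (ancS A a ∩ ancS A a).Nonempty := ⟨a, by simp [mem_ancS, anc_refl]⟩
  rw [lca, dif_pos hne]
  apply le_antisymm
  · apply Finset.max'_le
    intro y hy
    rw [mem_inter, mem_ancS] at hy
    exact anc_le hlt hy.1
  · apply Finset.le_max'
    simp [mem_ancS, anc_refl]

theorem lca_anc_left {A : V → Finset V} (a b : V) : Anc A (lca A a b) a := by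
  rw [lca]
  split_ifs with h
  · have := Finset.max'_mem _ h
    rw [mem_inter, mem_ancS] at this
    exact this.1
  · exact anc_refl A a

theorem lca_spec {A : V → Finset V} (a b q : V) (ha : Anc A q a) (hb : Anc A q b) :
    Anc A (lca A a b) a ∧ Anc A (lca A a b) b ∧
      ∀ e, Anc A e a → Anc A e b → e ≤ lca A a b := by
  have hne : (ancS A a ∩ ancS A b).Nonempty := ⟨q, by simp [mem_ancS, ha, hb]⟩
  have hmem := Finset.max'_mem _ hne
  rw [mem_inter, mem_ancS, mem_ancS] at hmem
  rw [lca, dif_pos hne]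
  refine ⟨hmem.1, hmem.2, ?_⟩
  intro e h1 h2
  apply Finset.le_max'
  simp [mem_ancS, h1, h2]

/-- Closure of a set under lowest common ancestors. -/
noncomputable def Mset (A : V → Finset V) (S : Finset V) : Finset V :=
  (S ×ˢ S).image (fun p => lca A p.1 p.2)

theorem Mset_card {A : V → Finset V} (S : Finset V) :
    (Mset A S).card ≤ S.card * S.card := by
  refine le_trans Finset.card_image_le ?_
  rw [Finset.card_product]

theorem subset_Mset {A : V → Finset V} (hlt : ∀ u v, u ∈ A v → u < v) (S : Finset V) :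
    S ⊆ Mset A S := by
  intro a ha
  rw [Mset, mem_image]
  exact ⟨(a, a), by simp [ha], lca_self hlt a⟩

theorem Mset_closed {A : V → Finset V} (hlt : ∀ u v, u ∈ A v → u < v)
    (hcl : ∀ u w v, u ∈ A v → w ∈ A v → u < w → u ∈ A w)
    (S : Finset V) (m m' q : V) (hm : m ∈ Mset A S) (hm' : m' ∈ Mset A S)
    (h1 : Anc A q m) (h2 : Anc A q m') :
    ∃ c ∈ Mset A S, Anc A c m ∧ Anc A c m' ∧ ∀ e, Anc A e m → Anc A e m' → e ≤ c := by
  by_cases hmm' : Anc A m m'
  · exact ⟨m, hm, anc_refl A m, hmm', fun e he _ => anc_le hlt he⟩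
  by_cases hm'm : Anc A m' m
  · exact ⟨m', hm', hm'm, anc_refl A m', fun e _ he => anc_le hlt he⟩
  obtain ⟨⟨a, b⟩, hab, rfl⟩ := mem_image.mp hm
  obtain ⟨⟨a', b'⟩, hab', rfl⟩ := mem_image.mp hm'
  simp only [mem_product] at hab hab'
  simp only at *
  set m := lca A a b with hmdef
  set m' := lca A a' b' with hm'def
  have hma : Anc A m a := lca_anc_left a b
  have hm'a' : Anc A m' a' := lca_anc_left a' b'
  obtain ⟨s1, s2, s3⟩ := lca_spec (A := A) a a' q (anc_trans h1 hma) (anc_trans h2 hm'a')
  set c := lca A a a' with hc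
  have hcm : Anc A c m := by
    rcases le_or_gt c m with h | h
    · exact anc_chain hlt hcl a c m s1 hma h
    · exfalso
      have : Anc A m c := anc_chain hlt hcl a m c hma s1 h.le
      have h5 : Anc A m a' := anc_trans this s2
      rcases le_total m m' with h6 | h6
      · exact hmm' (anc_chain hlt hcl a' m m' h5 hm'a' h6)
      · exact hm'm (anc_chain hlt hcl a' m' m hm'a' h5 h6)
  have hcm' : Anc A c m' := by
    rcases le_or_gt c m' with h | h
    · exact anc_chain hlt hcl a' c m' s2 hm'a' h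
    · exfalso
      have : Anc A m' c := anc_chain hlt hcl a' m' c hm'a' s2 h.le
      have h5 : Anc A m' a := anc_trans this s1
      rcases le_total m m' with h6 | h6
      · exact hmm' (anc_chain hlt hcl a m m' hma h5 h6)
      · exact hm'm (anc_chain hlt hcl a m' m h5 hma h6)
  refine ⟨c, ?_, hcm, hcm', ?_⟩
  · rw [Mset, mem_image]
    exact ⟨(a, a'), by simp [hab.1, hab'.1], rfl⟩
  · intro e he he'
    exact s3 e (anc_trans he hma) (anc_trans he' hm'a')

open Classical in
/-- The union of the bags of the nodes in `M`. -/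
noncomputable def Rset (A : V → Finset V) (M : Finset V) : Finset V :=
  univ.filter (fun z => ∃ m ∈ M, z = m ∨ z ∈ A m)

theorem mem_Rset {A : V → Finset V} {M : Finset V} {z : V} :
    z ∈ Rset A M ↔ ∃ m ∈ M, z = m ∨ z ∈ A m := by
  simp [Rset]

theorem Rset_card {A : V → Finset V} {M : Finset V} {k : ℕ} (hk : ∀ v, (A v).card ≤ k) :
    (Rset A M).card ≤ M.card * (k + 1) := by
  classical
  have : Rset A M ⊆ M.biUnion (fun m => insert m (A m)) := by
    intro z hz
    rw [mem_Rset] at hz
    obtain ⟨m, hm, h⟩ := hz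
    rw [mem_biUnion]
    refine ⟨m, hm, ?_⟩
    rw [mem_insert]
    exact h
  refine le_trans (Finset.card_le_card this) ?_
  refine Finset.card_biUnion_le_card_mul _ _ _ ?_
  intro m _
  refine le_trans (Finset.card_insert_le _ _) ?_
  have := hk m
  omega

open Classical in
noncomputable def Kset (A : V → Finset V) (M : Finset V) (v : V) : Finset V :=
  univ.filter (fun w => Anc A w v ∧ ∀ m ∈ M, Anc A m v → m < w)

theorem mem_Kset {A : V → Finset V} {M : Finset V} {v w : V} :
    w ∈ Kset A M v ↔ (Anc A w v ∧ ∀ m ∈ M, Anc A m v → m < w) := by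
  simp [Kset]

/-- The top of the piece containing `v`. -/
noncomputable def kap (A : V → Finset V) (M : Finset V) (v : V) : V :=
  if h : (Kset A M v).Nonempty then (Kset A M v).min' h else v

theorem self_mem_Kset {A : V → Finset V} (hlt : ∀ u v, u ∈ A v → u < v) {M : Finset V} {v : V}
    (hv : v ∉ M) : v ∈ Kset A M v := by
  rw [mem_Kset]
  refine ⟨anc_refl A v, ?_⟩
  intro m hm hmv
  refine lt_of_le_of_ne (anc_le hlt hmv) ?_
  rintro rfl
  exact hv hm

theorem kap_mem {A : V → Finset V} (hlt : ∀ u v, u ∈ A v → u < v) {M : Finset V} {v : V}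
    (hv : v ∉ M) : kap A M v ∈ Kset A M v := by
  have hne : (Kset A M v).Nonempty := ⟨v, self_mem_Kset hlt hv⟩
  rw [kap, dif_pos hne]
  exact Finset.min'_mem _ _

theorem kap_le {A : V → Finset V} {M : Finset V} {v w : V}
    (hw : w ∈ Kset A M v) : kap A M v ≤ w := by
  have hne : (Kset A M v).Nonempty := ⟨w, hw⟩
  rw [kap, dif_pos hne]
  exact Finset.min'_le _ _ hw

theorem not_mem_M_of_not_mem_R {A : V → Finset V} {M : Finset V} {v : V}
    (hv : v ∉ Rset A M) : v ∉ M := by
  intro h
  exact hv (mem_Rset.mpr ⟨v, h, Or.inl rfl⟩)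

/-- If `y ∈ A y'` and both avoid `R` then every `M`-ancestor of `y'` is an ancestor of `y`. -/
theorem anc_M_down {A : V → Finset V} (hlt : ∀ u v, u ∈ A v → u < v)
    (hcl : ∀ u w v, u ∈ A v → w ∈ A v → u < w → u ∈ A w)
    {M : Finset V} {y y' m : V} (hy : y ∉ Rset A M) (hyy' : y ∈ A y') (hm : m ∈ M)
    (hmy' : Anc A m y') : Anc A m y := by
  rcases le_or_gt m y with h | h
  · exact anc_chain hlt hcl y' m y hmy' (anc_of_mem hyy') h
  · exfalso
    apply hy
    rw [mem_Rset]
    exact ⟨m, hm, Or.inr (persist hlt hcl y' y m hyy' hmy' h)⟩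

theorem kap_eq_of_mem {A : V → Finset V} (hlt : ∀ u v, u ∈ A v → u < v)
    (hcl : ∀ u w v, u ∈ A v → w ∈ A v → u < w → u ∈ A w)
    {M : Finset V} {y y' : V} (hy : y ∉ Rset A M) (hy' : y' ∉ Rset A M) (hyy' : y ∈ A y') :
    kap A M y = kap A M y' := by
  have hyM := not_mem_M_of_not_mem_R hy
  have hy'M := not_mem_M_of_not_mem_R hy'
  have hsub : ∀ w, w ∈ Kset A M y → w ∈ Kset A M y' := by
    intro w hw
    rw [mem_Kset] at hw ⊢
    refine ⟨anc_trans hw.1 (anc_of_mem hyy'), ?_⟩
    intro m hm hmy'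
    exact hw.2 m hm (anc_M_down hlt hcl hy hyy' hm hmy')
  apply le_antisymm
  · apply kap_le
    have h1 := kap_mem hlt hy'M
    have h2 : kap A M y' ≤ y := kap_le (hsub y (self_mem_Kset hlt hyM))
    rw [mem_Kset] at h1 ⊢
    refine ⟨anc_chain hlt hcl y' _ y h1.1 (anc_of_mem hyy') h2, ?_⟩
    intro m hm hmy
    exact h1.2 m hm (anc_trans hmy (anc_of_mem hyy'))
  · apply kap_le
    exact hsub _ (kap_mem hlt hyM)

end Pool.Agent.H455R3.Clust
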