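import Mathlib

set_option autoImplicit false
set_option linter.unusedSectionVars false
set_option linter.unusedSimpArgs false

namespace Pool.Agent.H455R3.Clust

variable {V : Type} {G : SimpleGraph V}

theorem no3 (hg : (7 : ℕ∞) ≤ G.egirth) {a b c : V} (hab : G.Adj a b) (hbc : G.Adj b c)
    (hca : G.Adj c a) : False := by
  rw [SimpleGraph.le_egirth] at hg
  have h := hg a (SimpleGraph.Walk.cons hab (SimpleGraph.Walk.cons hbc
    (SimpleGraph.Walk.cons hca SimpleGraph.Walk.nil))) (by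
      have h1 := hab.ne; have h2 := hbc.ne; have h3 := hca.ne
      rw [SimpleGraph.Walk.cons_isCycle_iff]
      simp [h1.symm, h2.symm, h3.symm, h1, h2, h3])
  simp only [SimpleGraph.Walk.length_cons, SimpleGraph.Walk.length_nil] at h
  exact absurd h (by decide)

theorem no4 (hg : (7 : ℕ∞) ≤ G.egirth) {a b c d : V} (hab : G.Adj a b) (hbc : G.Adj b c)
    (hcd : G.Adj c d) (hda : G.Adj d a) (hac : a ≠ c) (hbd : b ≠ d) : False := by
  rw [SimpleGraph.le_egirth] at hg
  have h := hg a (SimpleGraph.Walk.cons hab (SimpleGraph.Walk.cons hbc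
    (SimpleGraph.Walk.cons hcd (SimpleGraph.Walk.cons hda SimpleGraph.Walk.nil)))) (by
      have h1 := hab.ne; have h2 := hbc.ne; have h3 := hcd.ne; have h4 := hda.ne
      rw [SimpleGraph.Walk.cons_isCycle_iff]
      simp [h1.symm, h2.symm, h3.symm, h4.symm, h1, h2, h3, h4, hac, hac.symm, hbd, hbd.symm])
  simp only [SimpleGraph.Walk.length_cons, SimpleGraph.Walk.length_nil] at h
  exact absurd h (by decide)

theorem no6 (hg : (7 : ℕ∞) ≤ G.egirth) {a b c d e f : V} (hab : G.Adj a b) (hbc : G.Adj b c)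
    (hcd : G.Adj c d) (hde : G.Adj d e) (hef : G.Adj e f) (hfa : G.Adj f a)
    (hac : a ≠ c) (had : a ≠ d) (hae : a ≠ e) (hbd : b ≠ d) (hbe : b ≠ e) (hbf : b ≠ f)
    (hce : c ≠ e) (hcf : c ≠ f) (hdf : d ≠ f) : False := by
  rw [SimpleGraph.le_egirth] at hg
  have h := hg a (SimpleGraph.Walk.cons hab (SimpleGraph.Walk.cons hbc
    (SimpleGraph.Walk.cons hcd (SimpleGraph.Walk.cons hde (SimpleGraph.Walk.cons hef
      (SimpleGraph.Walk.cons hfa SimpleGraph.Walk.nil)))))) (by
      have h1 := hab.ne; have h2 := hbc.ne; have h3 := hcd.ne; have h4 := hde.ne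
      have h5 := hef.ne; have h6 := hfa.ne
      rw [SimpleGraph.Walk.cons_isCycle_iff]
      simp [h1.symm, h2.symm, h3.symm, h4.symm, h5.symm, h6.symm, h1, h2, h3, h4, h5, h6,
        hac, hac.symm, had, had.symm, hae, hae.symm, hbd, hbd.symm, hbe, hbe.symm, hbf, hbf.symm,
        hce, hce.symm, hcf, hcf.symm, hdf, hdf.symm])
  simp only [SimpleGraph.Walk.length_cons, SimpleGraph.Walk.length_nil] at h
  exact absurd h (by decide)

end Pool.Agent.H455R3.Clust
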