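import Mathlib
import Pool.Agent.H455R3.Clust.Anc

/-!
Each piece has few neighbours in `R`.
-/

set_option autoImplicit false
set_option linter.unusedSectionVars false

open Finset

namespace Pool.Agent.H455R3.Clust

variable {V : Type} [LinearOrder V] [Fintype V]

open Classical in
/-- `R`-vertices adjacent to the piece with top `q`. -/
noncomputable def Zset (A : V → Finset V) (M : Finset V) (H : SimpleGraph V) (q : V) : Finset V :=
  univ.filter (fun z => z ∈ Rset A M ∧ ∃ y, y ∉ Rset A M ∧ kap A M y = q ∧ H.Adj z y)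

theorem mem_Zset {A : V → Finset V} {M : Finset V} {H : SimpleGraph V} {q z : V} :
    z ∈ Zset A M H q ↔ (z ∈ Rset A M ∧ ∃ y, y ∉ Rset A M ∧ kap A M y = q ∧ H.Adj z y) := by
  simp [Zset]

open Classical in
noncomputable def Mabove (A : V → Finset V) (M : Finset V) (q : V) : Finset V :=
  M.filter (fun m => Anc A m q)

open Classical in
noncomputable def Mbelow (A : V → Finset V) (M : Finset V) (q : V) : Finset V :=
  M.filter (fun m => Anc A q m)

theorem mem_Mabove {A : V → Finset V} {M : Finset V} {q m : V} :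
    m ∈ Mabove A M q ↔ m ∈ M ∧ Anc A m q := by
  simp [Mabove]

theorem mem_Mbelow {A : V → Finset V} {M : Finset V} {q m : V} :
    m ∈ Mbelow A M q ↔ m ∈ M ∧ Anc A q m := by
  simp [Mbelow]

open Classical in
/-- The `R`-neighbours of a piece lie in two bags. -/
theorem Zset_subset {A : V → Finset V} (hlt : ∀ u v, u ∈ A v → u < v)
    (hcl : ∀ u w v, u ∈ A v → w ∈ A v → u < w → u ∈ A w)
    (S : Finset V) (H : SimpleGraph V) (hadj : ∀ u v, H.Adj u v → u < v → u ∈ A v) (q : V) :
    Zset A (Mset A S) H q ⊆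
      (if h : (Mabove A (Mset A S) q).Nonempty then
        insert ((Mabove A (Mset A S) q).max' h) (A ((Mabove A (Mset A S) q).max' h)) else ∅) ∪
      (if h : (Mbelow A (Mset A S) q).Nonempty then
        A ((Mbelow A (Mset A S) q).min' h) else ∅) := by
  set M := Mset A S with hM
  intro z hz
  rw [mem_Zset] at hz
  obtain ⟨hzR, y, hyR, hyq, hzy⟩ := hz
  have hyM := not_mem_M_of_not_mem_R hyR
  have hqK := kap_mem hlt hyM
  rw [hyq] at hqK
  rw [mem_Kset] at hqK
  obtain ⟨hqy, hqM⟩ := hqK
  -- below: minimal element of Mbelow is an ancestor of all others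
  have hbelow : ∀ m ∈ M, Anc A q m → ∃ h : (Mbelow A M q).Nonempty,
      Anc A ((Mbelow A M q).min' h) m := by
    intro m hm hqm
    have hne : (Mbelow A M q).Nonempty := ⟨m, mem_Mbelow.mpr ⟨hm, hqm⟩⟩
    refine ⟨hne, ?_⟩
    set b := (Mbelow A M q).min' hne with hb
    have hbmem : b ∈ Mbelow A M q := Finset.min'_mem _ _
    rw [mem_Mbelow] at hbmem
    obtain ⟨c, hcM, hcb, hcm, hcmax⟩ :=
      Mset_closed hlt hcl S b m q hbmem.1 hm hbmem.2 hqm
    have hqc : Anc A q c := anc_chain hlt hcl b q c hbmem.2 hcb (hcmax q hbmem.2 hqm)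
    have h1 : b ≤ c := Finset.min'_le _ _ (mem_Mbelow.mpr ⟨hcM, hqc⟩)
    have h2 : c ≤ b := anc_le hlt hcb
    have : b = c := le_antisymm h1 h2
    rw [this]
    exact hcm
  have hbz : ∀ m ∈ M, z ∈ A m → Anc A q m →
      (∀ b, b ∈ M → Anc A q b → Anc A b m → b ≤ z → False) →
      z ∈ (if h : (Mbelow A M q).Nonempty then
        A ((Mbelow A M q).min' h) else ∅) := by
    intro m hm hzm hqm hno
    obtain ⟨hne, hb⟩ := hbelow m hm hqm
    rw [dif_pos hne]
    have hbmem : (Mbelow A M q).min' hne ∈ Mbelow A M q := Finset.min'_mem _ _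
    rw [mem_Mbelow] at hbmem
    have hlt' : z < (Mbelow A M q).min' hne := by
      by_contra hcon
      push Not at hcon
      exact hno _ hbmem.1 hbmem.2 hb hcon
    exact persist hlt hcl m z _ hzm hb hlt'
  rcases lt_or_gt_of_ne hzy.ne with hlt1 | hgt1
  · -- z < y
    have hzAy : z ∈ A y := hadj z y hzy hlt1
    have hzancy : Anc A z y := anc_of_mem hzAy
    by_cases hex : ∃ m ∈ M, Anc A m y ∧ z ≤ m
    · obtain ⟨m, hm, hmy, hzm⟩ := hex
      have hmq : Anc A m q := anc_chain hlt hcl y m q hmy hqy (hqM m hm hmy).le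
      have hne : (Mabove A M q).Nonempty := ⟨m, mem_Mabove.mpr ⟨hm, hmq⟩⟩
      rw [mem_union]
      left
      rw [dif_pos hne]
      set a := (Mabove A M q).max' hne with ha
      have hamem : a ∈ Mabove A M q := Finset.max'_mem _ _
      rw [mem_Mabove] at hamem
      have hma : m ≤ a := Finset.le_max' _ _ (mem_Mabove.mpr ⟨hm, hmq⟩)
      rw [mem_insert]
      rcases eq_or_lt_of_le (le_trans hzm hma) with h | h
      · left; exact h
      · right
        exact persist hlt hcl y z a hzAy (anc_trans hamem.2 hqy) h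
    · push Not at hex
      rw [mem_union]
      right
      rw [mem_Rset] at hzR
      obtain ⟨m, hm, hzm⟩ := hzR
      have hzm : z ∈ A m := by
        rcases hzm with h | h
        · exfalso
          subst h
          exact absurd (hex z hm hzancy) (lt_irrefl _)
        · exact h
      have hqz : q ≤ z := by
        rw [← hyq]
        apply kap_le
        rw [mem_Kset]
        exact ⟨hzancy, fun m' hm' hm'y => hex m' hm' hm'y⟩
      have hqz' : Anc A q z := anc_chain hlt hcl y q z hqy hzancy hqz
      have hqm : Anc A q m := anc_trans hqz' (anc_of_mem hzm)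
      refine hbz m hm hzm hqm ?_
      intro b hbM hqb hbm hbz'
      have hbancz : Anc A b z := anc_chain hlt hcl m b z hbm (anc_of_mem hzm) hbz'
      have hby : Anc A b y := anc_trans hbancz hzancy
      have h1 := hqM b hbM hby
      have h2 := anc_le hlt hqb
      exact absurd h1 (not_lt.mpr h2)
  · -- y < z
    have hyAz : y ∈ A z := hadj y z hzy.symm hgt1
    rw [mem_Rset] at hzR
    obtain ⟨m, hm, hzm⟩ := hzR
    have hzm : z ∈ A m := by
      rcases hzm with h | h
      · exfalso
        subst h
        exact hyR (mem_Rset.mpr ⟨z, hm, Or.inr hyAz⟩)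
      · exact h
    have hqm : Anc A q m := anc_trans hqy (anc_trans (anc_of_mem hyAz) (anc_of_mem hzm))
    rw [mem_union]
    right
    refine hbz m hm hzm hqm ?_
    intro b hbM hqb hbm hbz'
    have hbancz : Anc A b z := anc_chain hlt hcl m b z hbm (anc_of_mem hzm) hbz'
    rcases le_or_gt b y with h | h
    · have hby : Anc A b y := anc_chain hlt hcl z b y hbancz (anc_of_mem hyAz) h
      have h1 := hqM b hbM hby
      have h2 := anc_le hlt hqb
      exact absurd h1 (not_lt.mpr h2)
    · exact hyR (mem_Rset.mpr ⟨b, hbM, Or.inr (persist hlt hcl z y b hyAz hbancz h)⟩)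

theorem Zset_card {A : V → Finset V} (hlt : ∀ u v, u ∈ A v → u < v)
    (hcl : ∀ u w v, u ∈ A v → w ∈ A v → u < w → u ∈ A w)
    {k : ℕ} (hk : ∀ v, (A v).card ≤ k)
    (S : Finset V) (H : SimpleGraph V) (hadj : ∀ u v, H.Adj u v → u < v → u ∈ A v) (q : V) :
    (Zset A (Mset A S) H q).card ≤ 2 * k + 1 := by
  classical
  refine le_trans (Finset.card_le_card (Zset_subset hlt hcl S H hadj q)) ?_
  refine le_trans (Finset.card_union_le _ _) ?_
  have h1 : (if h : (Mabove A (Mset A S) q).Nonempty then
        insert ((Mabove A (Mset A S) q).max' h) (A ((Mabove A (Mset A S) q).max' h))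
        else ∅).card ≤ k + 1 := by
    split_ifs with h
    · refine le_trans (Finset.card_insert_le _ _) ?_
      have := hk ((Mabove A (Mset A S) q).max' h)
      omega
    · simp
  have h2 : (if h : (Mbelow A (Mset A S) q).Nonempty then
        A ((Mbelow A (Mset A S) q).min' h) else ∅).card ≤ k := by
    split_ifs with h
    · exact hk _
    · simp
  omega

end Pool.Agent.H455R3.Clust
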