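import Mathlib
import Pool.Agent.H455R3.Clust.Piece

/-!
A level function of bounded band components, for bounded degree graphs with an elimination
ordering of bounded width.
-/

set_option autoImplicit false
set_option linter.unusedSectionVars false

open Finset

namespace Pool.Agent.H455R3.Clust

variable {V : Type} [LinearOrder V] [Fintype V]

/-- `H`-adjacency inside `C`. -/
def relOn (H : SimpleGraph V) (C : Finset V) (a b : V) : Prop := H.Adj a b ∧ a ∈ C ∧ b ∈ C

/-- `C` is connected in `H`. -/
def Conn (H : SimpleGraph V) (C : Finset V) : Prop :=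
  ∀ x ∈ C, ∀ y ∈ C, Relation.ReflTransGen (relOn H C) x y

theorem relOn_symm {H : SimpleGraph V} {C : Finset V} {a b : V} (h : relOn H C a b) :
    relOn H C b a := ⟨h.1.symm, h.2.2, h.2.1⟩

theorem rtg_symm {H : SimpleGraph V} {C : Finset V} {a b : V}
    (h : Relation.ReflTransGen (relOn H C) a b) : Relation.ReflTransGen (relOn H C) b a := by
  induction h with
  | refl => exact Relation.ReflTransGen.refl
  | tail _ hbc ih => exact Relation.ReflTransGen.head (relOn_symm hbc) ih

open Classical in
/-- The component of `x` in `C`. -/
noncomputable def comp (H : SimpleGraph V) (C : Finset V) (x : V) : Finset V :=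
  C.filter (fun y => Relation.ReflTransGen (relOn H C) x y)

theorem mem_comp {H : SimpleGraph V} {C : Finset V} {x y : V} :
    y ∈ comp H C x ↔ y ∈ C ∧ Relation.ReflTransGen (relOn H C) x y := by
  simp [comp]

theorem comp_conn {H : SimpleGraph V} {C : Finset V} {x : V} (hx : x ∈ C) :
    Conn H (comp H C x) := by
  have key : ∀ y, Relation.ReflTransGen (relOn H C) x y →
      Relation.ReflTransGen (relOn H (comp H C x)) x y := by
    intro y hy
    induction hy with
    | refl => exact Relation.ReflTransGen.refl
    | tail hab hbc ih =>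
      refine Relation.ReflTransGen.tail ih ⟨hbc.1, ?_, ?_⟩
      · exact mem_comp.mpr ⟨hbc.2.1, hab⟩
      · exact mem_comp.mpr ⟨hbc.2.2, Relation.ReflTransGen.tail hab hbc⟩
  intro y hy z hz
  rw [mem_comp] at hy hz
  exact (rtg_symm (key y hy.2)).trans (key z hz.2)

/-- The cluster bound for windows. -/
def hb (b Δ : ℕ) : ℕ → ℕ
  | 0 => b
  | w + 1 => b + (b * Δ) * hb b Δ w

open Classical in
theorem layering {A : V → Finset V} (hlt : ∀ u v, u ∈ A v → u < v)
    (hcl : ∀ u w v, u ∈ A v → w ∈ A v → u < w → u ∈ A w)
    {k : ℕ} (hk : ∀ v, (A v).card ≤ k)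
    (H : SimpleGraph V) (hadj : ∀ u v, H.Adj u v → u < v → u ∈ A v)
    {Δ : ℕ} (hΔ : ∀ x, (univ.filter (fun y => H.Adj x y)).card ≤ Δ)
    (s b : ℕ) (hs : s = (2 * k + 1) * Δ + 1) (hb' : b = s * s * (k + 1)) :
    ∀ n, ∀ X : Finset V, X.card ≤ n → ∀ S ⊆ X, S.card ≤ s →
      ∃ l : V → ℕ, (∀ v ∈ S, l v = 0) ∧ (∀ u ∈ X, ∀ v ∈ X, H.Adj u v → l u ≤ l v + 1) ∧
        ∀ w, ∀ C ⊆ X, Conn H C → (∀ x ∈ C, ∀ y ∈ C, l x ≤ l y + w) → C.card ≤ hb b Δ w := by
  intro n
  induction n with
  | zero =>
    intro X hX S hS _
    have hX0 : X = ∅ := Finset.card_eq_zero.mp (Nat.le_zero.mp hX)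
    subst hX0
    refine ⟨fun _ => 0, fun _ _ => rfl, fun _ _ _ _ _ => by simp, ?_⟩
    intro w C hC _ _
    rw [Finset.subset_empty.mp hC]
    simp
  | succ n ih =>
    intro X hX S hS hScard
    by_cases hXe : X = ∅
    · subst hXe
      refine ⟨fun _ => 0, fun _ _ => rfl, fun _ _ _ _ _ => by simp, ?_⟩
      intro w C hC _ _
      rw [Finset.subset_empty.mp hC]
      simp
    obtain ⟨x0, hx0⟩ := Finset.nonempty_iff_ne_empty.mpr hXe
    -- a nonempty S'
    obtain ⟨S', hSS', hS'X, hS'card, s0, hs0⟩ : ∃ S' : Finset V, S ⊆ S' ∧ S' ⊆ X ∧
        S'.card ≤ s ∧ S'.Nonempty := by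
      by_cases hSe : S.Nonempty
      · exact ⟨S, Finset.Subset.refl _, hS, hScard, hSe⟩
      · rw [Finset.not_nonempty_iff_eq_empty] at hSe
        refine ⟨{x0}, ?_, ?_, ?_, ⟨x0, by simp⟩⟩
        · rw [hSe]; simp
        · simpa using hx0
        · simp [hs]
    set M := Mset A S' with hM
    set R := Rset A M with hR
    have hS'R : S' ⊆ R := by
      intro v hv
      rw [hR, mem_Rset]
      exact ⟨v, subset_Mset hlt S' hv, Or.inl rfl⟩
    have hRcard : R.card ≤ b := by
      refine le_trans (Rset_card hk) ?_
      rw [hb']
      refine Nat.mul_le_mul_right _ ?_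
      exact le_trans (Mset_card S') (Nat.mul_le_mul hS'card hS'card)
    let Y : V → Finset V := fun q => X.filter (fun v => v ∉ R ∧ kap A M v = q)
    let Sq : V → Finset V := fun q => (Y q).filter (fun y => ∃ z ∈ R, H.Adj z y)
    have hYmem : ∀ q v, v ∈ Y q ↔ v ∈ X ∧ v ∉ R ∧ kap A M v = q := by
      intro q v; simp [Y]
    have hYcard : ∀ q, (Y q).card ≤ n := by
      intro q
      have hss : Y q ⊆ X.erase s0 := by
        intro v hv
        rw [hYmem] at hv
        rw [mem_erase]
        refine ⟨?_, hv.1⟩
        rintro rfl
        exact hv.2.1 (hS'R hs0)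
      have h1 := Finset.card_le_card hss
      rw [Finset.card_erase_of_mem (hS'X hs0)] at h1
      omega
    have hSqcard : ∀ q, (Sq q).card ≤ s := by
      intro q
      have hss : Sq q ⊆ (Zset A M H q).biUnion (fun z => univ.filter (fun y => H.Adj z y)) := by
        intro y hy
        simp only [Sq, mem_filter] at hy
        obtain ⟨hyY, z, hzR, hzy⟩ := hy
        rw [hYmem] at hyY
        rw [mem_biUnion]
        refine ⟨z, ?_, by simpa using hzy⟩
        rw [mem_Zset]
        exact ⟨hzR, y, hyY.2.1, hyY.2.2, hzy⟩
      refine le_trans (Finset.card_le_card hss) ?_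
      refine le_trans (Finset.card_biUnion_le_card_mul _ _ Δ (fun z _ => hΔ z)) ?_
      have := Zset_card hlt hcl hk S' H hadj q
      rw [hs]
      refine le_trans (Nat.mul_le_mul_right Δ this) ?_
      omega
    have hex := fun q => ih (Y q) (hYcard q) (Sq q) (Finset.filter_subset _ _) (hSqcard q)
    choose lq hlq1 hlq2 hlq3 using hex
    let l : V → ℕ := fun v => if v ∈ R then 0 else lq (kap A M v) v + 1
    have hlR : ∀ v ∈ R, l v = 0 := fun v hv => by simp only [l]; rw [if_pos hv]
    have hlnR : ∀ v, v ∉ R → l v = lq (kap A M v) v + 1 := fun v hv => by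
      simp only [l]; rw [if_neg hv]
    have hkap : ∀ u v, H.Adj u v → u ∉ R → v ∉ R → kap A M u = kap A M v := by
      intro u v huv hu hv
      rcases lt_or_gt_of_ne huv.ne with h | h
      · exact kap_eq_of_mem hlt hcl hu hv (hadj u v huv h)
      · exact (kap_eq_of_mem hlt hcl hv hu (hadj v u huv.symm h)).symm
    refine ⟨l, fun v hv => hlR v (hS'R (hSS' hv)), ?_, ?_⟩
    · intro u hu v hv huv
      by_cases huR : u ∈ R
      · rw [hlR u huR]; omega
      by_cases hvR : v ∈ R
      · rw [hlnR u huR, hlR v hvR]
        have huS : u ∈ Sq (kap A M u) := by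
          simp only [Sq, mem_filter]
          exact ⟨(hYmem _ _).mpr ⟨hu, huR, rfl⟩, v, hvR, huv.symm⟩
        rw [hlq1 _ u huS]
      · rw [hlnR u huR, hlnR v hvR, ← hkap u v huv huR hvR]
        have := hlq2 (kap A M u) u ((hYmem _ _).mpr ⟨hu, huR, rfl⟩) v
          ((hYmem _ _).mpr ⟨hv, hvR, (hkap u v huv huR hvR).symm⟩) huv
        omega
    · intro w C hCX hC hwin
      by_cases hCR : ∃ r ∈ C, r ∈ R
      · obtain ⟨r, hrC, hrR⟩ := hCR
        have hle : ∀ x ∈ C, l x ≤ w := by
          intro x hx
          have := hwin x hx r hrC
          rw [hlR r hrR] at this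
          omega
        rcases w with _ | w
        · have : C ⊆ R := by
            intro x hx
            by_contra hxR
            have h1 := hle x hx
            rw [hlnR x hxR] at h1
            omega
          exact le_trans (Finset.card_le_card this) hRcard
        · set C' := C.filter (fun x => x ∉ R) with hC'
          set W := (R.biUnion (fun z => univ.filter (fun y => H.Adj z y))).filter
            (fun x => x ∈ C') with hW
          have hWcard : W.card ≤ b * Δ := by
            refine le_trans (Finset.card_filter_le _ _) ?_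
            refine le_trans (Finset.card_biUnion_le_card_mul _ _ Δ (fun z _ => hΔ z)) ?_
            exact Nat.mul_le_mul_right Δ hRcard
          have hcover : C ⊆ R ∪ W.biUnion (fun x => comp H C' x) := by
            intro c hc
            have hpath := hC r hrC c hc
            have : c ∈ R ∨ ∃ x ∈ W, c ∈ comp H C' x := by
              clear hc
              induction hpath with
              | refl => exact Or.inl hrR
              | @tail c1 c2 _ hcc ih2 =>
                by_cases hc2 : c2 ∈ R
                · exact Or.inl hc2
                right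
                have hc2' : c2 ∈ C' := by
                  rw [hC', mem_filter]
                  exact ⟨hcc.2.2, hc2⟩
                by_cases hc1 : c1 ∈ R
                · refine ⟨c2, ?_, mem_comp.mpr ⟨hc2', Relation.ReflTransGen.refl⟩⟩
                  rw [hW, mem_filter, mem_biUnion]
                  exact ⟨⟨c1, hc1, by simpa using hcc.1⟩, hc2'⟩
                · rcases ih2 with h | ⟨x, hxW, hx⟩
                  · exact absurd h hc1
                  · refine ⟨x, hxW, mem_comp.mpr ⟨hc2', ?_⟩⟩
                    rw [mem_comp] at hx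
                    exact Relation.ReflTransGen.tail hx.2 ⟨hcc.1, hx.1, hc2'⟩
            rcases this with h | ⟨x, hxW, hx⟩
            · exact mem_union_left _ h
            · exact mem_union_right _ (mem_biUnion.mpr ⟨x, hxW, hx⟩)
          have hpiece : ∀ x ∈ W, (comp H C' x).card ≤ hb b Δ w := by
            intro x hxW
            rw [hW, mem_filter] at hxW
            have hxC' := hxW.2
            have hkx : ∀ y ∈ comp H C' x, kap A M y = kap A M x := by
              intro y hy
              rw [mem_comp] at hy
              have hpath := hy.2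
              clear hy
              induction hpath with
              | refl => rfl
              | @tail y1 y2 _ hyy ih2 =>
                rw [← ih2]
                have h1 := hyy.2.1
                have h2 := hyy.2.2
                rw [hC', mem_filter] at h1 h2
                exact (hkap y1 y2 hyy.1 h1.2 h2.2).symm
            have hsub : comp H C' x ⊆ Y (kap A M x) := by
              intro y hy
              have hk' := hkx y hy
              rw [mem_comp, hC', mem_filter] at hy
              exact (hYmem _ _).mpr ⟨hCX hy.1.1, hy.1.2, hk'⟩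
            refine hlq3 (kap A M x) w _ hsub (comp_conn hxC') ?_
            intro y hy z _
            have hy' := (mem_comp.mp hy).1
            rw [hC', mem_filter] at hy'
            have h1 := hle y hy'.1
            rw [hlnR y hy'.2, hkx y hy] at h1
            omega
          refine le_trans (Finset.card_le_card hcover) ?_
          refine le_trans (Finset.card_union_le _ _) ?_
          show _ ≤ b + (b * Δ) * hb b Δ w
          refine add_le_add hRcard ?_
          refine le_trans (Finset.card_biUnion_le_card_mul _ _ _ hpiece) ?_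
          exact Nat.mul_le_mul_right _ hWcard
      · push Not at hCR
        rcases Finset.eq_empty_or_nonempty C with hCe | ⟨c0, hc0⟩
        · rw [hCe]; simp
        have hkc : ∀ y ∈ C, kap A M y = kap A M c0 := by
          intro y hy
          have hpath := hC c0 hc0 y hy
          clear hy
          induction hpath with
          | refl => rfl
          | @tail y1 y2 _ hyy ih2 =>
            rw [← ih2]
            exact (hkap y1 y2 hyy.1 (hCR y1 hyy.2.1) (hCR y2 hyy.2.2)).symm
        refine hlq3 (kap A M c0) w C ?_ hC ?_
        · intro y hy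
          exact (hYmem _ _).mpr ⟨hCX hy, hCR y hy, hkc y hy⟩
        · intro y hy z hz
          have h1 := hwin y hy z hz
          rw [hlnR y (hCR y hy), hlnR z (hCR z hz), hkc y hy, hkc z hz] at h1
          omega

end Pool.Agent.H455R3.Clust
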