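import Mathlib
import Pool.Agent.H455R3.Clust.Layer
import Pool.Agent.H455R3.Clust.Cyc

/-!
The forest of oldest older neighbours, chargeable vertices and the bounded degree graph.
-/

set_option autoImplicit false
set_option linter.unusedSectionVars false

open Finset

namespace Pool.Agent.H455R3.Clust

variable {V : Type} [LinearOrder V] [Fintype V]

open Classical in
/-- Older neighbours. -/
noncomputable def older (G : SimpleGraph V) (v : V) : Finset V :=
  univ.filter (fun u => G.Adj u v ∧ u < v)

theorem mem_older {G : SimpleGraph V} {u v : V} : u ∈ older G v ↔ G.Adj u v ∧ u < v := by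
  simp [older]

/-- The oldest older neighbour. -/
noncomputable def par (G : SimpleGraph V) (v : V) : V :=
  if h : (older G v).Nonempty then (older G v).min' h else v

theorem par_mem {G : SimpleGraph V} {v : V} (h : (older G v).Nonempty) :
    par G v ∈ older G v := by
  rw [par, dif_pos h]
  exact Finset.min'_mem _ _

theorem par_le {G : SimpleGraph V} {u v : V} (h : u ∈ older G v) : par G v ≤ u := by
  rw [par, dif_pos ⟨u, h⟩]
  exact Finset.min'_le _ _ h

/-- Chargeable vertices. -/
def Chg (G : SimpleGraph V) (A : V → Finset V) (v : V) : Prop :=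
  (older G v).Nonempty ∧ ∃ y q, G.Adj v y ∧ y ≠ par G v ∧ q ∈ A (par G v) ∧ G.Adj y q

/-- Forced vertices: neither roots nor chargeable. -/
def Forced (G : SimpleGraph V) (A : V → Finset V) (v : V) : Prop :=
  (older G v).Nonempty ∧ ¬ Chg G A v

/-- The bounded degree graph. -/
def Gst (G : SimpleGraph V) (A : V → Finset V) : SimpleGraph V where
  Adj u v := G.Adj u v ∧ ¬ (Forced G A v ∧ par G v = u) ∧ ¬ (Forced G A u ∧ par G u = v)
  symm := ⟨fun _ _ h => ⟨h.1.symm, h.2.2, h.2.1⟩⟩
  loopless := ⟨fun _ h => G.loopless.irrefl _ h.1⟩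

section

variable {G : SimpleGraph V} {A : V → Finset V}

/-- A non-forest edge has an unforced endpoint. -/
theorem unforced_of_nonforest (hlt : ∀ u v, u ∈ A v → u < v)
    (hcl : ∀ u w v, u ∈ A v → w ∈ A v → u < w → u ∈ A w)
    (hadj : ∀ u v, G.Adj u v → u < v → u ∈ A v) (hg : (7 : ℕ∞) ≤ G.egirth)
    {u v : V} (huv : G.Adj u v) (hlt' : u < v) (hpar : par G v ≠ u) :
    ¬ Forced G A u ∨ ¬ Forced G A v := by
  have huo : u ∈ older G v := mem_older.mpr ⟨huv, hlt'⟩
  have hne : (older G v).Nonempty := ⟨u, huo⟩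
  have hp := par_mem hne
  rw [mem_older] at hp
  set p := par G v with hpdef
  have hpu : p < u := lt_of_le_of_ne (par_le huo) hpar
  have hpAv : p ∈ A v := hadj p v hp.1 hp.2
  have huAv : u ∈ A v := hadj u v huv hlt'
  have hpAu : p ∈ A u := hcl p u v hpAv huAv hpu
  by_cases hru : (older G u).Nonempty
  · have hq := par_mem hru
    rw [mem_older] at hq
    set q := par G u with hqdef
    have hqAu : q ∈ A u := hadj q u hq.1 hq.2
    have hpq : p ≠ q := by
      intro h
      rw [← h] at hq
      exact no3 hg hp.1 huv.symm hq.1.symm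
    rcases lt_or_gt_of_ne hpq with h | h
    · -- p < q : u is chargeable
      left
      intro hf
      apply hf.2
      refine ⟨hru, v, p, huv, ?_, hcl p q u hpAu hqAu h, hp.1.symm⟩
      rw [← hqdef]
      exact (lt_trans hq.2 hlt').ne'
    · -- q < p : v is chargeable
      right
      intro hf
      apply hf.2
      refine ⟨hne, u, q, huv.symm, ?_, hcl q p u hqAu hpAu h, hq.1.symm⟩
      rw [← hpdef]
      exact hpu.ne'
  · left
    intro hf
    exact hru hf.1

theorem Gst_unforced (hlt : ∀ u v, u ∈ A v → u < v)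
    (hcl : ∀ u w v, u ∈ A v → w ∈ A v → u < w → u ∈ A w)
    (hadj : ∀ u v, G.Adj u v → u < v → u ∈ A v) (hg : (7 : ℕ∞) ≤ G.egirth)
    {u v : V} (huv : (Gst G A).Adj u v) :
    ¬ Forced G A u ∨ ¬ Forced G A v := by
  obtain ⟨h1, h2, h3⟩ := huv
  rcases lt_or_gt_of_ne h1.ne with h | h
  · by_cases hp : par G v = u
    · right
      intro hf
      exact h2 ⟨hf, hp⟩
    · exact unforced_of_nonforest hlt hcl hadj hg h1 h hp
  · by_cases hp : par G u = v
    · left
      intro hf
      exact h3 ⟨hf, hp⟩
    · exact (unforced_of_nonforest hlt hcl hadj hg h1.symm h hp).symm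

open Classical in
theorem card_nonforest_younger (hlt : ∀ u v, u ∈ A v → u < v)
    (hcl : ∀ u w v, u ∈ A v → w ∈ A v → u < w → u ∈ A w)
    {k : ℕ} (hk : ∀ v, (A v).card ≤ k)
    (hadj : ∀ u v, G.Adj u v → u < v → u ∈ A v) (hg : (7 : ℕ∞) ≤ G.egirth) (x : V) :
    (univ.filter (fun y => G.Adj x y ∧ x < y ∧ par G y ≠ x)).card ≤ k := by
  refine le_trans ?_ (hk x)
  refine Finset.card_le_card_of_injOn (fun y => par G y) ?_ ?_
  · intro y hy
    simp only [coe_filter, mem_univ, true_and, Set.mem_setOf_eq] at hy
    have hxo : x ∈ older G y := mem_older.mpr ⟨hy.1, hy.2.1⟩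
    have hp := par_mem ⟨x, hxo⟩
    rw [mem_older] at hp
    have hpx : par G y < x := lt_of_le_of_ne (par_le hxo) hy.2.2
    exact hcl _ _ _ (hadj _ _ hp.1 hp.2) (hadj _ _ hy.1 hy.2.1) hpx
  · intro y hy y' hy' hyy
    simp only [coe_filter, mem_univ, true_and, Set.mem_setOf_eq] at hy hy'
    simp only at hyy
    by_contra hne
    have hp := par_mem ⟨x, mem_older.mpr ⟨hy.1, hy.2.1⟩⟩
    have hp' := par_mem ⟨x, mem_older.mpr ⟨hy'.1, hy'.2.1⟩⟩
    rw [mem_older] at hp hp'
    rw [← hyy] at hp'
    exact no4 hg hy.1 hp.1.symm hp'.1 hy'.1.symm hy.2.2.symm hne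

open Classical in
theorem card_chargeable (hlt : ∀ u v, u ∈ A v → u < v)
    {k : ℕ} (hk : ∀ v, (A v).card ≤ k) (hg : (7 : ℕ∞) ≤ G.egirth) (p : V) :
    (univ.filter (fun v => Chg G A v ∧ par G v = p)).card ≤ k := by
  refine le_trans ?_ (hk p)
  have hch : ∀ v : V, ∃ q : V, (Chg G A v ∧ par G v = p) →
      ∃ y, G.Adj v y ∧ y ≠ p ∧ q ∈ A p ∧ G.Adj y q := by
    intro v
    by_cases h : Chg G A v ∧ par G v = p
    · obtain ⟨⟨_, y, q, h1, h2, h3, h4⟩, h5⟩ := h
      rw [h5] at h2 h3
      exact ⟨q, fun _ => ⟨y, h1, h2, h3, h4⟩⟩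
    · exact ⟨v, fun h' => absurd h' h⟩
  choose Q hQ using hch
  refine Finset.card_le_card_of_injOn Q ?_ ?_
  · intro v hv
    simp only [coe_filter, mem_univ, true_and, Set.mem_setOf_eq] at hv
    obtain ⟨y, _, _, h, _⟩ := hQ v hv
    exact h
  · intro v hv v' hv' hqq
    simp only [coe_filter, mem_univ, true_and, Set.mem_setOf_eq] at hv hv'
    by_contra hne
    obtain ⟨y, hvy, hyp, hqA, hyq⟩ := hQ v hv
    obtain ⟨y', hvy', hyp', _, hyq'⟩ := hQ v' hv'
    rw [← hqq] at hyq'
    have hp := par_mem hv.1.1
    have hp' := par_mem hv'.1.1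
    rw [mem_older, hv.2] at hp
    rw [mem_older, hv'.2] at hp'
    have hqp : Q v < p := hlt _ _ hqA
    by_cases hyy : y = y'
    · subst hyy
      exact no4 hg hp.1 hvy hvy'.symm hp'.1.symm hyp.symm hne
    by_cases hyv' : y = v'
    · subst hyv'
      exact no3 hg hp.1 hvy hp'.1.symm
    by_cases hy'v : y' = v
    · subst hy'v
      exact no3 hg hp'.1 hvy' hp.1.symm
    exact no6 hg hp.1 hvy hyq hyq'.symm hvy'.symm hp'.1.symm hyp.symm hqp.ne' hyp'.symm
      (lt_trans hqp hp.2).ne' (Ne.symm hy'v) hne hyy hyv' (lt_trans hqp hp'.2).ne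

open Classical in
theorem Gst_degree (hlt : ∀ u v, u ∈ A v → u < v)
    (hcl : ∀ u w v, u ∈ A v → w ∈ A v → u < w → u ∈ A w)
    {k : ℕ} (hk : ∀ v, (A v).card ≤ k)
    (hadj : ∀ u v, G.Adj u v → u < v → u ∈ A v) (hg : (7 : ℕ∞) ≤ G.egirth) (x : V) :
    (univ.filter (fun y => (Gst G A).Adj x y)).card ≤ 3 * k := by
  have hsub : univ.filter (fun y => (Gst G A).Adj x y) ⊆
      A x ∪ ((univ.filter (fun y => G.Adj x y ∧ x < y ∧ par G y ≠ x)) ∪
        (univ.filter (fun v => Chg G A v ∧ par G v = x))) := by
    intro y hy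
    simp only [mem_filter, mem_univ, true_and] at hy
    obtain ⟨h1, h2, h3⟩ := hy
    rcases lt_or_gt_of_ne h1.ne with h | h
    · rw [mem_union]
      right
      rw [mem_union]
      by_cases hp : par G y = x
      · right
        simp only [mem_filter, mem_univ, true_and]
        refine ⟨?_, hp⟩
        by_contra hc
        apply h2
        refine ⟨⟨⟨x, mem_older.mpr ⟨h1, h⟩⟩, hc⟩, hp⟩
      · left
        simp only [mem_filter, mem_univ, true_and]
        exact ⟨h1, h, hp⟩
    · rw [mem_union]
      left
      exact hadj y x h1.symm h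
  refine le_trans (Finset.card_le_card hsub) ?_
  refine le_trans (Finset.card_union_le _ _) ?_
  have h1 := hk x
  have h2 := Finset.card_union_le (univ.filter (fun y => G.Adj x y ∧ x < y ∧ par G y ≠ x))
        (univ.filter (fun v => Chg G A v ∧ par G v = x))
  have h3 := card_nonforest_younger hlt hcl hk hadj hg x
  have h4 := card_chargeable hlt hk hg x
  omega

/-- Extend a colouring of the unforced vertices. -/
theorem exists_extend (g : V → Fin 2) :
    ∃ f : V → Fin 2, (∀ v, ¬ Forced G A v → f v = g v) ∧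
      (∀ v, Forced G A v → f v ≠ f (par G v)) := by
  classical
  -- partial extensions along the order
  have key : ∀ n : ℕ, ∃ f : V → Fin 2, ∀ v, (univ.filter (fun w : V => w < v)).card < n →
      ((¬ Forced G A v → f v = g v) ∧ (Forced G A v → f v ≠ f (par G v))) := by
    intro n
    induction n with
    | zero => exact ⟨g, fun v hv => absurd hv (Nat.not_lt_zero _)⟩
    | succ n ih =>
      obtain ⟨f, hf⟩ := ih
      refine ⟨fun v => if (univ.filter (fun w : V => w < v)).card < n then f v else
        (if Forced G A v then 1 - f (par G v) else g v), ?_⟩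
      intro v hv
      by_cases hlt : (univ.filter (fun w : V => w < v)).card < n
      · obtain ⟨h1, h2⟩ := hf v hlt
        refine ⟨fun h => by simp only [if_pos hlt]; exact h1 h, fun h => ?_⟩
        have hp := par_mem h.1
        rw [mem_older] at hp
        have hcard : (univ.filter (fun w : V => w < par G v)).card < n := by
          refine lt_of_le_of_lt (Finset.card_le_card ?_) hlt
          intro w hw
          simp only [mem_filter, mem_univ, true_and] at hw ⊢
          exact lt_trans hw hp.2
        simp only [if_pos hlt, if_pos hcard]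
        exact h2 h
      · simp only [if_neg hlt]
        refine ⟨fun h => by rw [if_neg h], fun h => ?_⟩
        have hp := par_mem h.1
        rw [mem_older] at hp
        have hcard : (univ.filter (fun w : V => w < par G v)).card < n := by
          have : (univ.filter (fun w : V => w < par G v)).card <
              (univ.filter (fun w : V => w < v)).card := by
            apply Finset.card_lt_card
            rw [Finset.ssubset_iff_of_subset]
            · exact ⟨par G v, by simp [hp.2], by simp⟩
            · intro w hw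
              simp only [mem_filter, mem_univ, true_and] at hw ⊢
              exact lt_trans hw hp.2
          omega
        rw [if_pos h, if_pos hcard]
        generalize f (par G v) = c
        fin_cases c <;> decide
  obtain ⟨f, hf⟩ := key (Fintype.card V + 1)
  refine ⟨f, fun v h => (hf v ?_).1 h, fun v h => (hf v ?_).2 h⟩
  · exact Nat.lt_succ_of_le (Finset.card_le_univ _)
  · exact Nat.lt_succ_of_le (Finset.card_le_univ _)

end

end Pool.Agent.H455R3.Clust
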