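import Mathlib
import Pool.Agent.H455R3.Clust.Forest

/-!
The two-colouring with bounded clusters, for graphs with an elimination ordering.
-/

set_option autoImplicit false
set_option linter.unusedSectionVars false
set_option linter.unusedVariables false

open Finset

namespace Pool.Agent.H455R3.Clust

variable {V : Type} [LinearOrder V] [Fintype V]

theorem crossing {H : SimpleGraph V} {s : Finset V} {l : V → ℕ} {i : ℕ} {y x : V}
    (hp : Relation.ReflTransGen (relOn H s) y x) (hy : l y ≤ i) (hx : i < l x) :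
    ∃ a b, relOn H s a b ∧ l a ≤ i ∧ i < l b := by
  induction hp with
  | refl => omega
  | @tail a b _ hab ih =>
    by_cases ha : l a ≤ i
    · exact ⟨a, b, hab, ha, hx⟩
    · exact ih (by omega)

/-- The cluster bound. -/
def bound (k : ℕ) : ℕ :=
  hb (((2 * k + 1) * (3 * k) + 1) * ((2 * k + 1) * (3 * k) + 1) * (k + 1)) (3 * k) 3

theorem colour_elim {G : SimpleGraph V} {A : V → Finset V} (hlt : ∀ u v, u ∈ A v → u < v)
    (hcl : ∀ u w v, u ∈ A v → w ∈ A v → u < w → u ∈ A w)
    {k : ℕ} (hk : ∀ v, (A v).card ≤ k)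
    (hadj : ∀ u v, G.Adj u v → u < v → u ∈ A v) (hg : (7 : ℕ∞) ≤ G.egirth) :
    ∃ f : V → Fin 2, ∀ s : Finset V, (∀ x ∈ s, ∀ y ∈ s, f x = f y) → Conn G s →
      s.card ≤ bound k := by
  classical
  obtain ⟨l, _, hl, hbound⟩ := layering hlt hcl hk (Gst G A)
    (fun u v h h' => hadj u v h.1 h') (fun x => Gst_degree hlt hcl hk hadj hg x)
    ((2 * k + 1) * (3 * k) + 1)
    (((2 * k + 1) * (3 * k) + 1) * ((2 * k + 1) * (3 * k) + 1) * (k + 1)) rfl rfl
    (Fintype.card V) univ (Finset.card_le_univ _) ∅ (Finset.empty_subset _) (by simp)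
  obtain ⟨f, hf1, hf2⟩ := exists_extend (G := G) (A := A)
    (fun v => if (l v / 2) % 2 = 0 then (0 : Fin 2) else 1)
  refine ⟨f, ?_⟩
  intro s hmono hconn
  have hconn' : Conn (Gst G A) s := by
    intro x hx y hy
    have := hconn x hx y hy
    clear hx hy
    induction this with
    | refl => exact Relation.ReflTransGen.refl
    | @tail a b _ hab ih =>
      refine Relation.ReflTransGen.tail ih ⟨⟨hab.1, ?_, ?_⟩, hab.2.1, hab.2.2⟩
      · rintro ⟨h1, h2⟩
        have := hf2 b h1
        rw [h2] at this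
        exact this (hmono b hab.2.2 a hab.2.1)
      · rintro ⟨h1, h2⟩
        have := hf2 a h1
        rw [h2] at this
        exact this (hmono a hab.2.1 b hab.2.2)
  refine hbound 3 s (Finset.subset_univ _) hconn' ?_
  intro x hx y hy
  by_contra hcon
  push Not at hcon
  -- a bad pair of levels
  obtain ⟨i, hi1, hi2, hi3⟩ : ∃ i, l y ≤ i ∧ i ≤ l y + 3 ∧
      (∀ v, (l v = i ∨ l v = i + 1) → ¬ Forced G A v → f v ≠ f y) := by
    have hcases : f y = 0 ∨ f y = 1 := by
      generalize f y = c
      fin_cases c <;> simp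
    rcases hcases with h0 | h1
    · refine ⟨l y + (2 + 4 - l y % 4) % 4, by omega, by omega, ?_⟩
      intro v hv hnf
      rw [hf1 v hnf, h0]
      have : ¬ ((l v / 2) % 2 = 0) := by omega
      rw [if_neg this]
      decide
    · refine ⟨l y + (4 - l y % 4) % 4, by omega, by omega, ?_⟩
      intro v hv hnf
      rw [hf1 v hnf, h1]
      have : ((l v / 2) % 2 = 0) := by omega
      rw [if_pos this]
      decide
  obtain ⟨a, b, hab, ha, hb'⟩ := crossing (hconn' y hy x hx) hi1 (show i < l x by omega)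
  have hlip := hl b (mem_univ _) a (mem_univ _) hab.1.symm
  rcases Gst_unforced hlt hcl hadj hg hab.1 with h | h
  · exact hi3 a (Or.inl (by omega)) h (hmono a hab.2.1 y hy)
  · exact hi3 b (Or.inr (by omega)) h (hmono b hab.2.2 y hy)

end Pool.Agent.H455R3.Clust
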