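import Mathlib
import Pool.Agent.H455R3.Clust.Colour

/-!
From a tree decomposition to an elimination ordering.
-/

set_option autoImplicit false
set_option linter.unusedSectionVars false
set_option linter.unusedVariables false

open Finset

namespace Pool.Agent.H455R3.Clust

section tree

variable {n : ℕ} {T : SimpleGraph (Fin n)} (hT : T.IsTree) (r : Fin n)

/-- The path from the root. -/
noncomputable def pth (x : Fin n) : T.Walk r x := (hT.existsUnique_path r x).choose

theorem pth_isPath (x : Fin n) : (pth hT r x).IsPath :=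
  (hT.existsUnique_path r x).choose_spec.1

theorem pth_unique {x : Fin n} (p : T.Walk r x) (hp : p.IsPath) : p = pth hT r x :=
  (hT.existsUnique_path r x).choose_spec.2 p hp

theorem pth_adj {x y : Fin n} (h : T.Adj x y) :
    pth hT r y = (pth hT r x).concat h ∨ pth hT r x = (pth hT r y).concat h.symm := by
  by_cases hx : x ∈ (pth hT r y).support
  · left
    exact hT.isAcyclic.path_concat (pth_isPath hT r x) (pth_isPath hT r y) h hx
  · right
    have := hT.isAcyclic.mem_support_of_ne_mem_support_of_adj_of_isPath
      (pth_isPath hT r x) (pth_isPath hT r y) h hx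
    exact hT.isAcyclic.path_concat (pth_isPath hT r y) (pth_isPath hT r x) h.symm this

/-- Depth. -/
noncomputable def depth (x : Fin n) : ℕ := (pth hT r x).length

theorem anc_step {x y a : Fin n} (h : T.Adj x y) (ha : a ∈ (pth hT r x).support)
    (hax : a ≠ x) : a ∈ (pth hT r y).support := by
  rcases pth_adj hT r h with h1 | h1
  · rw [h1, SimpleGraph.Walk.support_concat]
    simp [ha]
  · rw [h1, SimpleGraph.Walk.support_concat] at ha
    simp only [List.concat_eq_append, List.mem_append, List.mem_singleton] at ha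
    rcases ha with h2 | h2
    · exact h2
    · exact absurd h2 hax

theorem depth_le {x a : Fin n} (ha : a ∈ (pth hT r x).support) :
    depth hT r a ≤ depth hT r x := by
  classical
  have h1 : (pth hT r x).takeUntil a ha = pth hT r a :=
    pth_unique hT r _ ((pth_isPath hT r x).takeUntil ha)
  rw [depth, depth, ← h1]
  exact SimpleGraph.Walk.length_takeUntil_le _ ha

theorem depth_lt {x a : Fin n} (ha : a ∈ (pth hT r x).support) (hax : a ≠ x) :
    depth hT r a < depth hT r x := by
  classical
  have h1 : (pth hT r x).takeUntil a ha = pth hT r a :=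
    pth_unique hT r _ ((pth_isPath hT r x).takeUntil ha)
  rw [depth, depth, ← h1]
  exact SimpleGraph.Walk.length_takeUntil_lt ha hax

theorem anc_of_connected {C : Set (Fin n)} (hC : (T.induce C).Connected) {i j a : Fin n}
    (hi : i ∈ C) (hj : j ∈ C) (ha : a ∉ C) (hai : a ∈ (pth hT r i).support) :
    a ∈ (pth hT r j).support := by
  have hreach : (T.induce C).Reachable ⟨i, hi⟩ ⟨j, hj⟩ := hC.preconnected _ _
  rw [SimpleGraph.reachable_iff_reflTransGen] at hreach
  have key : ∀ z : C, Relation.ReflTransGen (T.induce C).Adj ⟨i, hi⟩ z →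
      a ∈ (pth hT r z.1).support := by
    intro z hz
    induction hz with
    | refl => exact hai
    | @tail b c _ hbc ih =>
      refine anc_step hT r hbc ih ?_
      rintro rfl
      exact ha b.2
  exact key _ hreach

theorem top_anc {C : Set (Fin n)} (hC : (T.induce C).Connected) {i a : Fin n}
    (hi : i ∈ C) (ha : a ∈ C) (hmin : ∀ j ∈ C, depth hT r a ≤ depth hT r j) :
    a ∈ (pth hT r i).support := by
  have hreach : (T.induce C).Reachable ⟨a, ha⟩ ⟨i, hi⟩ := hC.preconnected _ _
  rw [SimpleGraph.reachable_iff_reflTransGen] at hreach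
  have key : ∀ z : C, Relation.ReflTransGen (T.induce C).Adj ⟨a, ha⟩ z →
      a ∈ (pth hT r z.1).support := by
    intro z hz
    induction hz with
    | refl => exact SimpleGraph.Walk.end_mem_support _
    | @tail b c _ hbc ih =>
      by_cases hab : a = b.1
      · have hadj : T.Adj b.1 c.1 := hbc
        rcases pth_adj hT r hadj with h1 | h1
        · rw [h1, SimpleGraph.Walk.support_concat]
          simp [ih]
        · exfalso
          have h2 := hmin c.1 c.2
          have h3 : depth hT r b.1 = depth hT r c.1 + 1 := by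
            rw [depth, h1, SimpleGraph.Walk.length_concat]
            rfl
          rw [hab, h3] at h2
          omega
      · exact anc_step hT r hbc ih hab
  exact key _ hreach

/-- The key fact on subtrees. -/
theorem top_mem {C D : Set (Fin n)} (hC : (T.induce C).Connected) (hD : (T.induce D).Connected)
    {i a b : Fin n} (hiC : i ∈ C) (hiD : i ∈ D) (ha : a ∈ C) (hb : b ∈ D)
    (hmin : ∀ j ∈ C, depth hT r a ≤ depth hT r j) (hle : depth hT r b ≤ depth hT r a) :
    a ∈ D := by
  by_contra hcon
  have h1 := top_anc hT r hC hiC ha hmin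
  have h2 := anc_of_connected hT r hD hiD hb hcon h1
  have h3 := depth_lt hT r h2 (by rintro rfl; exact hcon hb)
  omega

end tree

theorem main_clust (k : ℕ) (V : Type) [Fintype V] (G : SimpleGraph V)
    (hg : (7 : ℕ∞) ≤ G.egirth)
    (htd : ∃ n : ℕ, ∃ T : SimpleGraph (Fin n), T.IsTree ∧ ∃ B : Fin n → Finset V,
      (∀ i, (B i).card ≤ k + 1) ∧
      (∀ v : V, ∃ i, v ∈ B i) ∧
      (∀ u v : V, G.Adj u v → ∃ i, u ∈ B i ∧ v ∈ B i) ∧
      (∀ v : V, (T.induce {i | v ∈ B i}).Connected)) :
    ∃ f : V → Fin 2, ∀ s : Finset V, (∀ x ∈ s, ∀ y ∈ s, f x = f y) →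
      (G.induce (s : Set V)).Connected → s.card ≤ bound k := by
  classical
  obtain ⟨n, T, hT, B, hBcard, hBcov, hBadj, hBconn⟩ := htd
  obtain ⟨r⟩ := hT.connected.nonempty
  have htop : ∀ v : V, ∃ a : Fin n, v ∈ B a ∧ ∀ j, v ∈ B j → depth hT r a ≤ depth hT r j := by
    intro v
    obtain ⟨i, hi⟩ := hBcov v
    obtain ⟨a, ha, hmin⟩ := Finset.exists_min_image (univ.filter (fun j => v ∈ B j))
      (fun j => depth hT r j) ⟨i, by simpa using hi⟩
    refine ⟨a, by simpa using ha, ?_⟩
    intro j hj
    exact hmin j (by simpa using hj)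
  choose top htop1 htop2 using htop
  have hfact : ∀ u v i, u ∈ B i → v ∈ B i → depth hT r (top u) ≤ depth hT r (top v) →
      u ∈ B (top v) := by
    intro u v i hu hv hle
    exact top_mem hT r (C := {i | v ∈ B i}) (D := {i | u ∈ B i}) (hBconn v) (hBconn u)
      (i := i) hv hu (htop1 v) (htop1 u) (fun j hj => htop2 v j hj) hle
  let e := Fintype.equivFin V
  set m := Fintype.card V with hm
  let rk : V → ℕ := fun v => depth hT r (top v) * m + (e v : ℕ)
  have hrk : Function.Injective rk := by
    intro u v huv
    have hu := (e u).2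
    have hv := (e v).2
    have h0 : 0 < m := lt_of_le_of_lt (Nat.zero_le _) hu
    have h1 : rk u % m = rk v % m := by rw [huv]
    simp only [rk] at h1
    rw [Nat.mul_comm, Nat.mul_add_mod, Nat.mul_comm, Nat.mul_add_mod, Nat.mod_eq_of_lt hu,
      Nat.mod_eq_of_lt hv] at h1
    exact e.injective (Fin.ext h1)
  letI : LinearOrder V := LinearOrder.lift' rk hrk
  have hltrk : ∀ u v : V, u < v → rk u < rk v := fun u v h => h
  have hdepth : ∀ u v : V, u < v → depth hT r (top u) ≤ depth hT r (top v) := by
    intro u v huv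
    have h1 := hltrk u v huv
    by_contra hcon
    push Not at hcon
    have hu := (e u).2
    have hv := (e v).2
    simp only [rk] at h1
    have h2 : (depth hT r (top v) + 1) * m ≤ depth hT r (top u) * m :=
      Nat.mul_le_mul_right m hcon
    rw [Nat.add_mul, Nat.one_mul] at h2
    omega
  let A : V → Finset V := fun v => (B (top v)).filter (fun u => u < v)
  have hlt : ∀ u v, u ∈ A v → u < v := by
    intro u v h
    simp only [A, mem_filter] at h
    exact h.2
  have hk : ∀ v, (A v).card ≤ k := by
    intro v
    have hsub : A v ⊆ (B (top v)).erase v := by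
      intro u hu
      simp only [A, mem_filter] at hu
      rw [mem_erase]
      exact ⟨hu.2.ne, hu.1⟩
    have h1 := Finset.card_le_card hsub
    rw [Finset.card_erase_of_mem (htop1 v)] at h1
    have := hBcard (top v)
    omega
  have hadj : ∀ u v, G.Adj u v → u < v → u ∈ A v := by
    intro u v huv hlt'
    obtain ⟨i, hui, hvi⟩ := hBadj u v huv
    simp only [A, mem_filter]
    exact ⟨hfact u v i hui hvi (hdepth u v hlt'), hlt'⟩
  have hcl : ∀ u w v, u ∈ A v → w ∈ A v → u < w → u ∈ A w := by
    intro u w v hu hw huw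
    simp only [A, mem_filter] at hu hw ⊢
    exact ⟨hfact u w (top v) hu.1 hw.1 (hdepth u w huw), huw⟩
  obtain ⟨f, hf⟩ := colour_elim hlt hcl hk hadj hg
  refine ⟨f, ?_⟩
  intro s hs hconn
  refine hf s hs ?_
  intro x hx y hy
  have hreach : (G.induce (s : Set V)).Reachable ⟨x, hx⟩ ⟨y, hy⟩ := hconn.preconnected _ _
  rw [SimpleGraph.reachable_iff_reflTransGen] at hreach
  have key : ∀ z : (s : Set V), Relation.ReflTransGen (G.induce (s : Set V)).Adj ⟨x, hx⟩ z →
      Relation.ReflTransGen (relOn G s) x z.1 := by
    intro z hz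
    induction hz with
    | refl => exact Relation.ReflTransGen.refl
    | @tail b c _ hbc ih =>
      exact Relation.ReflTransGen.tail ih ⟨hbc, b.2, c.2⟩
  exact key _ hreach

end Pool.Agent.H455R3.Clust
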